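import Mathlib

/-! The wreath product of the integers with themselves and its Liouville property. -/

set_option autoImplicit false
open LaurentPolynomial

namespace Pool.Agent.H290Z.AR

/-- The wreath product `ℤ ≀ ℤ`, as pairs (Laurent polynomial, position). -/
@[ext] structure ZZ where
  f : LaurentPolynomial ℤ
  x : ℤ

namespace ZZ

noncomputable instance : Mul ZZ := ⟨fun g h => ⟨g.f + T g.x * h.f, g.x + h.x⟩⟩
noncomputable instance : One ZZ := ⟨⟨0, 0⟩⟩
noncomputable instance : Inv ZZ := ⟨fun g => ⟨-(T (-g.x) * g.f), -g.x⟩⟩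

@[simp] lemma mul_f (g h : ZZ) : (g * h).f = g.f + T g.x * h.f := rfl
@[simp] lemma mul_x (g h : ZZ) : (g * h).x = g.x + h.x := rfl
@[simp] lemma one_f : (1 : ZZ).f = 0 := rfl
@[simp] lemma one_x : (1 : ZZ).x = 0 := rfl
@[simp] lemma inv_f (g : ZZ) : (g⁻¹).f = -(T (-g.x) * g.f) := rfl
@[simp] lemma inv_x (g : ZZ) : (g⁻¹).x = -g.x := rfl

noncomputable instance : Group ZZ where
  mul_assoc a b c := by
    ext1
    · simp only [mul_f, mul_x, T_add]; ring
    · simp only [mul_x]; ring
  one_mul a := by ext1 <;> simp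
  mul_one a := by ext1 <;> simp
  inv_mul_cancel a := by
    ext1
    · simp
    · simp

instance : Countable ZZ := by
  have : Countable (LaurentPolynomial ℤ) := by
    have h : Function.Injective (fun p : LaurentPolynomial ℤ => (p.coeff : ℤ →₀ ℤ)) :=
      fun p q h => AddMonoidAlgebra.coeff_injective h
    exact h.countable
  have h : Function.Injective (fun g : ZZ => (g.f, g.x)) := by
    intro g h hh
    simp only [Prod.mk.injEq] at hh
    exact ZZ.ext hh.1 hh.2
  exact h.countable

/-- the lamp generator -/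
noncomputable def a : ZZ := ⟨1, 0⟩
/-- the shift generator -/
noncomputable def t : ZZ := ⟨0, 1⟩

/-- the base subgroup embedding -/
noncomputable def lamp (p : LaurentPolynomial ℤ) : ZZ := ⟨p, 0⟩
/-- the shifts -/
noncomputable def sh (n : ℤ) : ZZ := ⟨0, n⟩

@[simp] lemma lamp_f (p : LaurentPolynomial ℤ) : (lamp p).f = p := rfl
@[simp] lemma lamp_x (p : LaurentPolynomial ℤ) : (lamp p).x = 0 := rfl
@[simp] lemma sh_f (n : ℤ) : (sh n).f = 0 := rfl
@[simp] lemma sh_x (n : ℤ) : (sh n).x = n := rfl
@[simp] lemma a_f : a.f = 1 := rfl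
@[simp] lemma a_x : a.x = 0 := rfl
@[simp] lemma t_f : t.f = 0 := rfl
@[simp] lemma t_x : t.x = 1 := rfl

lemma lamp_add (p q : LaurentPolynomial ℤ) : lamp (p + q) = lamp p * lamp q := by
  ext1 <;> simp

lemma lamp_zero : lamp 0 = 1 := rfl

lemma lamp_neg (p : LaurentPolynomial ℤ) : lamp (-p) = (lamp p)⁻¹ := by
  ext1 <;> simp

lemma sh_add (m n : ℤ) : sh (m + n) = sh m * sh n := by
  ext1 <;> simp

lemma sh_neg (m : ℤ) : sh (-m) = (sh m)⁻¹ := by
  ext1 <;> simp

lemma sh_zero : sh 0 = 1 := rfl

lemma decomp (g : ZZ) : g = lamp g.f * sh g.x := by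
  ext1 <;> simp

lemma conj_a (n : ℤ) : sh n * a * (sh n)⁻¹ = lamp (T n) := by
  ext1 <;> simp

/-- a subgroup containing all `lamp (T n)` contains all lamps -/
lemma lamp_mem (K : Subgroup ZZ) (h : ∀ n, lamp (T n) ∈ K) (p : LaurentPolynomial ℤ) :
    lamp p ∈ K := by
  induction p using LaurentPolynomial.induction_on' with
  | add p q hp hq => rw [lamp_add]; exact K.mul_mem hp hq
  | C_mul_T n m =>
    induction m using Int.induction_on with
    | zero => simp only [map_zero, zero_mul]; exact K.one_mem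
    | succ i ih =>
      rw [map_add, map_one, add_mul, one_mul, lamp_add]
      exact K.mul_mem ih (h n)
    | pred i ih =>
      rw [map_sub, map_one, sub_mul, one_mul, sub_eq_add_neg, lamp_add, lamp_neg]
      exact K.mul_mem ih (K.inv_mem (h n))

lemma eq_top_of_mem (K : Subgroup ZZ) (ha : a ∈ K) (ht : t ∈ K) : K = ⊤ := by
  have hs : ∀ n, sh n ∈ K := by
    intro n
    induction n using Int.induction_on with
    | zero => exact K.one_mem
    | succ i ih => rw [sh_add]; exact K.mul_mem ih ht
    | pred i ih => rw [sub_eq_add_neg, sh_add, sh_neg 1]; exact K.mul_mem ih (K.inv_mem ht)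
  have hl : ∀ p, lamp p ∈ K := lamp_mem K fun n => by
    rw [← conj_a]; exact K.mul_mem (K.mul_mem (hs n) ha) (K.inv_mem (hs n))
  rw [eq_top_iff]
  intro g _
  rw [decomp g]
  exact K.mul_mem (hl _) (hs _)

end ZZ

/-- A midpoint convex function on the integers that is bounded above is constant. -/
lemma convex_const (m : ℤ → ℝ) (B : ℝ) (hB : ∀ x, m x ≤ B)
    (hc : ∀ x, 2 * m x ≤ m (x + 1) + m (x - 1)) (x : ℤ) : m x = m 0 := by
  have step : ∀ (m : ℤ → ℝ), (∀ x, m x ≤ B) → (∀ x, 2 * m x ≤ m (x + 1) + m (x - 1)) →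
      ∀ x, m (x + 1) ≤ m x := by
    intro m hB hc x
    by_contra hlt
    push Not at hlt
    set d := m (x + 1) - m x with hd
    have hdpos : 0 < d := by linarith
    have h1 : ∀ n : ℕ, d ≤ m (x + n + 1) - m (x + n) := by
      intro n
      induction n with
      | zero => simp [hd]
      | succ n ih =>
        have := hc (x + n + 1)
        push_cast
        rw [show x + (n : ℤ) + 1 - 1 = x + n by ring] at this
        rw [show x + ((n : ℤ) + 1) = x + n + 1 by ring]
        linarith
    have h2 : ∀ n : ℕ, m x + n * d ≤ m (x + n) := by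
      intro n
      induction n with
      | zero => simp
      | succ n ih =>
        have := h1 n
        push_cast
        rw [show x + ((n : ℤ) + 1) = x + n + 1 by ring]
        linarith
    obtain ⟨n, hn⟩ := exists_nat_gt ((B - m x) / d)
    have h3 := h2 n
    have h4 := hB (x + n)
    rw [div_lt_iff₀ hdpos] at hn
    linarith
  have h1 := step m hB hc
  have h2 := step (fun y => m (-y)) (fun y => hB _) (fun y => by
    have := hc (-y)
    rw [show -(y + 1) = -y - 1 by ring, show -(y - 1) = -y + 1 by ring]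
    linarith)
  have h3 : ∀ y, m (y + 1) = m y := fun y => le_antisymm (h1 y) (by
    have := h2 (-(y + 1))
    simp only [neg_neg] at this
    rwa [show -(-(y + 1) + 1) = y by ring] at this)
  induction x using Int.induction_on with
  | zero => rfl
  | succ i ih => rw [h3, ih]
  | pred i ih => rw [← h3, sub_add_cancel, ih]

open ZZ

/-- harmonicity for the simple random walk with generators `a`, `t` -/
def Harm (F : ZZ → ℝ) : Prop :=
  ∀ g, 4 * F g = F (g * a) + F (g * a⁻¹) + F (g * t) + F (g * t⁻¹)

lemma harm_left {F : ZZ → ℝ} (hF : Harm F) (u : ZZ) : Harm fun g => F (u * g) := by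
  intro g
  simp only [← mul_assoc]
  exact hF (u * g)

lemma harm_le {F : ZZ → ℝ} (hF : Harm F) (B : ℝ) (hB : ∀ g, |F g| ≤ B) (g : ZZ) :
    F (a * g) ≤ F g := by
  set h : ZZ → ℝ := fun g => F (a * g) - F g with hh
  have hH : Harm h := by
    intro g
    have h1 := harm_left hF a g
    have h2 := hF g
    simp only [hh] at h1 ⊢
    linarith
  have hb : ∀ g, h g ≤ 2 * B := fun g => by
    have h1 := abs_le.1 (hB (a * g))
    have h2 := abs_le.1 (hB g)
    simp only [hh]
    linarith
  set m : ℤ → ℝ := fun x => sSup (h '' {g | g.x = x}) with hm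
  have hbdd : ∀ x, BddAbove (h '' {g | g.x = x}) := fun x =>
    ⟨2 * B, by rintro _ ⟨g, _, rfl⟩; exact hb g⟩
  have hne : ∀ x, (h '' {g | g.x = x}).Nonempty := fun x => ⟨h (sh x), sh x, rfl, rfl⟩
  have hle : ∀ g, h g ≤ m g.x := fun g => le_csSup (hbdd _) ⟨g, rfl, rfl⟩
  have hmB : ∀ x, m x ≤ 2 * B := fun x => csSup_le (hne x) (by rintro _ ⟨g, _, rfl⟩; exact hb g)
  have hconv : ∀ x, 2 * m x ≤ m (x + 1) + m (x - 1) := by
    intro x
    have : m x ≤ (2 * m x + m (x + 1) + m (x - 1)) / 4 := by
      apply csSup_le (hne x)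
      rintro _ ⟨g, hg, rfl⟩
      have hg : g.x = x := hg
      have h0 := hH g
      have h1 := hle (g * a)
      have h2 := hle (g * a⁻¹)
      have h3 := hle (g * t)
      have h4 := hle (g * t⁻¹)
      simp only [mul_x, inv_x, a_x, t_x, hg, add_zero, neg_zero, ← sub_eq_add_neg] at h1 h2 h3 h4
      linarith
    linarith
  have hconst := convex_const m (2 * B) hmB hconv
  set M := m 0 with hM
  have hleM : ∀ g, h g ≤ M := fun g => by rw [← hconst g.x]; exact hle g
  have hM0 : M ≤ 0 := by
    by_contra hpos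
    push Not at hpos
    obtain ⟨J, hJ⟩ := exists_nat_gt (4 * B / M)
    rw [div_lt_iff₀ hpos] at hJ
    have hε : 0 < M / 2 / 4 ^ J := by positivity
    obtain ⟨_, ⟨n, hn, rfl⟩, hn2⟩ := exists_lt_of_lt_csSup (hne 0)
      (show M - M / 2 / 4 ^ J < m 0 by linarith)
    have hn : n.x = 0 := hn
    have h1 : ∀ j : ℕ, M - 4 ^ j * (M / 2 / 4 ^ J) ≤ h (n * a ^ j) := by
      intro j
      induction j with
      | zero => simpa using hn2.le
      | succ j ih =>
        have h0 := hH (n * a ^ j)
        have h2 := hleM (n * a ^ j * a⁻¹)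
        have h3 := hleM (n * a ^ j * t)
        have h4 := hleM (n * a ^ j * t⁻¹)
        rw [pow_succ a, ← mul_assoc, pow_succ]
        linarith
    have hcomm : a * n = n * a := by
      ext1
      · simp [hn, add_comm]
      · simp
    have h2 : ∀ j : ℕ, j ≤ J → F n + j * (M / 2) ≤ F (n * a ^ j) := by
      intro j
      induction j with
      | zero => simp
      | succ j ih =>
        intro hj
        have h3 := ih (by omega)
        have h4 := h1 j
        have h5 : h (n * a ^ j) = F (n * a ^ (j + 1)) - F (n * a ^ j) := by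
          simp only [hh]
          rw [← mul_assoc, hcomm, mul_assoc, ← pow_succ']
        have h6 : (4 : ℝ) ^ j * (M / 2 / 4 ^ J) ≤ M / 2 := by
          have : (4 : ℝ) ^ j ≤ 4 ^ J := pow_le_pow_right₀ (by norm_num) (by omega)
          calc (4 : ℝ) ^ j * (M / 2 / 4 ^ J) ≤ 4 ^ J * (M / 2 / 4 ^ J) := by gcongr
            _ = M / 2 := by field_simp
        push_cast
        linarith
    have h3 := h2 J le_rfl
    have h4 := abs_le.1 (hB n)
    have h5 := abs_le.1 (hB (n * a ^ J))
    linarith
  have := hleM g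
  simp only [hh] at this
  linarith

lemma harm_eq {F : ZZ → ℝ} (hF : Harm F) (B : ℝ) (hB : ∀ g, |F g| ≤ B) (g : ZZ) :
    F (a * g) = F g := by
  apply le_antisymm (harm_le hF B hB g)
  have := harm_le (F := fun g => -F g) (fun g => by have := hF g; linarith) B
    (fun g => by simpa using hB g) g
  linarith

/-- Bounded harmonic functions on `ℤ ≀ ℤ` are constant. -/
theorem liouville {F : ZZ → ℝ} (hF : Harm F) (B : ℝ) (hB : ∀ g, |F g| ≤ B) (g : ZZ) :
    F g = F 1 := by
  let K : Subgroup ZZ :=
    { carrier := {u | ∀ g, F (u * g) = F g}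
      mul_mem' := fun {u v} hu hv g => by rw [mul_assoc, hu, hv]
      one_mem' := fun g => by rw [one_mul]
      inv_mem' := fun {u} hu g => by rw [← hu (u⁻¹ * g), mul_inv_cancel_left] }
  have hK : ∀ p, lamp p ∈ K := lamp_mem K fun n g => by
    rw [← conj_a]
    have := harm_eq (harm_left hF (sh n)) B (fun g => hB _) ((sh n)⁻¹ * g)
    simpa only [mul_assoc, mul_inv_cancel_left] using this
  have hφ : ∀ g, F g = F (sh g.x) := fun g => by
    conv_lhs => rw [decomp g]
    exact hK _ _
  have hc := convex_const (fun x => F (sh x)) B (fun x => (abs_le.1 (hB _)).2) (fun x => by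
    have h0 := hF (sh x)
    rw [hφ (sh x * a), hφ (sh x * a⁻¹), hφ (sh x * t), hφ (sh x * t⁻¹)] at h0
    simp only [mul_x, inv_x, a_x, t_x, sh_x, add_zero, neg_zero, ← sub_eq_add_neg] at h0
    linarith)
  rw [hφ g]
  exact hc g.x

end Pool.Agent.H290Z.AR
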