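import Pool.Agent.H290Z.AR.Prob
import Pool.Agent.H290Z.AR.Group

/-! A symmetric step law on `ℤ ≀ ℤ` whose walk is not algebraically recurrent. -/

set_option autoImplicit false
open MeasureTheory Filter Topology LaurentPolynomial

namespace Pool.Agent.H290Z.AR

open ZZ

/-- the horseshoe map -/
def hs (u : ℝ) : ℝ := 2 * u ^ 2 - 4

/-- the sign attached to a boolean -/
def sg (s : Bool) : ℝ := if s then 1 else -1

lemma sg_sq (s : Bool) : sg s ^ 2 = 1 := by cases s <;> simp [sg]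

lemma abs_sg (s : Bool) : |sg s| = 1 := by cases s <;> simp [sg]

lemma continuous_hs : Continuous hs := by unfold hs; fun_prop

/-- every itinerary is realised -/
lemma itin (ε : ℕ → Bool) : ∃ u : ℝ, ∀ k, 1 ≤ sg (ε k) * hs^[k] u ∧ |hs^[k] u| ≤ 2 := by
  have hne : ∀ n (ε : ℕ → Bool), ∃ u : ℝ, |u| ≤ 2 ∧
      ∀ k < n, 1 ≤ sg (ε k) * hs^[k] u ∧ |hs^[k] u| ≤ 2 := by
    intro n
    induction n with
    | zero => intro ε; exact ⟨0, by simp, fun k hk => by omega⟩
    | succ n ih =>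
      intro ε
      obtain ⟨v, hv, hv2⟩ := ih fun k => ε (k + 1)
      have hv' := abs_le.1 hv
      have h0 : 0 ≤ (v + 4) / 2 := by linarith
      have h1 : 1 ≤ √((v + 4) / 2) := by
        rw [Real.one_le_sqrt]; linarith
      have h2 : √((v + 4) / 2) ≤ 2 := by
        rw [Real.sqrt_le_iff]; constructor <;> linarith
      have h3 : |sg (ε 0) * √((v + 4) / 2)| ≤ 2 := by
        rw [abs_mul, abs_sg, one_mul, abs_of_nonneg (Real.sqrt_nonneg _)]; exact h2
      have h4 : hs (sg (ε 0) * √((v + 4) / 2)) = v := by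
        unfold hs
        rw [mul_pow, sg_sq, Real.sq_sqrt h0]; ring
      refine ⟨sg (ε 0) * √((v + 4) / 2), h3, fun k hk => ?_⟩
      rcases k with _ | k
      · refine ⟨?_, by simpa using h3⟩
        simp only [Function.iterate_zero, id]
        rw [← mul_assoc, ← sq, sg_sq, one_mul]; exact h1
      · rw [Function.iterate_succ_apply, h4]
        exact hv2 k (by omega)
  let K : ℕ → Set ℝ := fun n => {u | |u| ≤ 2 ∧
      ∀ k < n, 1 ≤ sg (ε k) * hs^[k] u ∧ |hs^[k] u| ≤ 2}
  have hcl : ∀ n, IsClosed (K n) := by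
    intro n
    have : K n = {u | |u| ≤ 2} ∩ ⋂ k, ⋂ _ : k < n,
        ({u | 1 ≤ sg (ε k) * hs^[k] u} ∩ {u | |hs^[k] u| ≤ 2}) := by
      ext u; simp [K]
    rw [this]
    refine (isClosed_le continuous_abs continuous_const).inter
      (isClosed_iInter fun k => isClosed_iInter fun _ => IsClosed.inter ?_ ?_)
    · exact isClosed_le continuous_const (continuous_const.mul (continuous_hs.iterate k))
    · exact isClosed_le (continuous_hs.iterate k).abs continuous_const
  have hcp : IsCompact (K 0) := by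
    refine (isCompact_Icc (a := (-2 : ℝ)) (b := 2)).of_isClosed_subset (hcl 0) ?_
    intro u hu
    exact abs_le.1 hu.1
  obtain ⟨u, hu⟩ := IsCompact.nonempty_iInter_of_sequence_nonempty_isCompact_isClosed K
    (fun n u hu => ⟨hu.1, fun k hk => hu.2 k (by omega)⟩) (fun n => hne n ε) hcp hcl
  exact ⟨u, fun k => (Set.mem_iInter.1 hu (k + 1)).2 k (Nat.lt_succ_self k)⟩

/-- the iterated polynomials -/
noncomputable def P : ℕ → LaurentPolynomial ℤ
  | 0 => T 1 - 3
  | k + 1 => 2 * P k ^ 2 - 4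

/-- evaluation at a unit -/
noncomputable def ev (r : ℝˣ) : LaurentPolynomial ℤ →+* ℝ :=
  LaurentPolynomial.eval₂ (Int.castRingHom ℝ) r

lemma ev_T (r : ℝˣ) (n : ℤ) : ev r (T n) = (r : ℝ) ^ n := by
  unfold ev
  rw [LaurentPolynomial.eval₂_T, Units.val_zpow_eq_zpow_val]

lemma ev_P (r : ℝˣ) (k : ℕ) : ev r (P k) = hs^[k] ((r : ℝ) - 3) := by
  induction k with
  | zero => simp [P, ev_T, map_ofNat]
  | succ k ih =>
    rw [Function.iterate_succ_apply', ← ih]
    simp [P, hs, map_ofNat]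

lemma exists_L (i : ℕ) : ∃ n : ℕ, (1 - W2 (i + 1)) ^ n ≤ (1 / 2 : ℝ) ^ i := by
  have h1 := W2_pos (i + 1)
  obtain ⟨n, hn⟩ := exists_pow_lt_of_lt_one (x := (1 / 2 : ℝ) ^ i) (y := 1 - W2 (i + 1))
    (by positivity) (by linarith)
  exact ⟨n, hn.le⟩

/-- time scales -/
noncomputable def L (i : ℕ) : ℕ := (exists_L i).choose

lemma L_spec (i : ℕ) : (1 - W2 (i + 1)) ^ L i ≤ (1 / 2 : ℝ) ^ i := (exists_L i).choose_spec

/-- size scales -/
noncomputable def M : ℕ → ℕ
  | 0 => 1
  | k + 1 => M k * (2 * L (k + 1) * 25 ^ L (k + 1) + 1)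

lemma M_mono : Monotone M := monotone_nat_of_le_succ fun k => by
  rw [M]; exact Nat.le_mul_of_pos_right _ (by positivity)

lemma M_pos (k : ℕ) : 1 ≤ M k := M_mono (Nat.zero_le k)

/-- the generators of the step law -/
noncomputable def gen (k : ℕ) : ZZ :=
  if k = 0 then a else if k = 1 then t else lamp ((M k : LaurentPolynomial ℤ) * P k)

/-- the step attached to a label -/
noncomputable def step (p : ℕ × Bool) : ZZ := if p.2 then gen p.1 else (gen p.1)⁻¹

lemma step_x (p : ℕ × Bool) : |(step p).x| ≤ 1 := by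
  unfold step gen
  split_ifs <;> simp

/-- partial products -/
noncomputable def X (ω : ℕ → ZZ) (k : ℕ) : ZZ := ((List.range k).map ω).prod

lemma X_zero (ω : ℕ → ZZ) : X ω 0 = 1 := rfl

lemma X_succ (ω : ℕ → ZZ) (k : ℕ) : X ω (k + 1) = X ω k * ω k := by
  simp [X, List.range_succ]

lemma X_x (ξ : ℕ → ℕ × Bool) (k : ℕ) : |(X (fun l => step (ξ l)) k).x| ≤ k := by
  induction k with
  | zero => simp [X_zero]
  | succ k ih =>
    rw [X_succ, mul_x]
    have := step_x (ξ k)
    have h2 := abs_add_le (X (fun l => step (ξ l)) k).x (step (ξ k)).x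
    push_cast
    linarith

lemma ev_mul (r : ℝˣ) (g h : ZZ) : ev r (g * h).f = ev r g.f + (r : ℝ) ^ g.x * ev r h.f := by
  rw [mul_f, map_add, map_mul, ev_T]

lemma ev_X (r : ℝˣ) (ω : ℕ → ZZ) (k : ℕ) :
    ev r (X ω k).f = ∑ l ∈ Finset.range k, (r : ℝ) ^ (X ω l).x * ev r (ω l).f := by
  induction k with
  | zero => simp [X_zero]
  | succ k ih => rw [X_succ, ev_mul, ih, Finset.sum_range_succ]

lemma ev_step_big (r : ℝˣ) (k : ℕ) (hk : 2 ≤ k) (s : Bool) :
    ev r (step (k, s)).f = M k * (sg s * hs^[k] ((r : ℝ) - 3)) := by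
  have h : gen k = lamp ((M k : LaurentPolynomial ℤ) * P k) := by
    unfold gen
    rw [if_neg (by omega), if_neg (by omega)]
  cases s
  · simp [step, h, sg, ev_P]
  · simp [step, h, sg, ev_P]

lemma ev_step_abs (r : ℝˣ) (hr : ∀ k, |hs^[k] ((r : ℝ) - 3)| ≤ 2) (p : ℕ × Bool) :
    |ev r (step p).f| ≤ 2 * M p.1 := by
  obtain ⟨k, s⟩ := p
  have h1 : (1 : ℝ) ≤ M k := by exact_mod_cast M_pos k
  by_cases h0 : k = 0
  · subst h0
    cases s
    · simp [step, gen]; linarith
    · simp [step, gen]; linarith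
  by_cases h2 : k = 1
  · subst h2
    cases s
    · simp [step, gen]
    · simp [step, gen]
  rw [ev_step_big r k (by omega), abs_mul, abs_mul, abs_sg, one_mul, abs_of_nonneg (by positivity)]
  have := hr k
  nlinarith

lemma zpow_bd (r : ℝ) (h1 : 1 ≤ r) (h5 : r ≤ 5) (x : ℤ) (n : ℕ) (hx : |x| ≤ n) :
    r ^ x ≤ 5 ^ n ∧ (5 ^ n)⁻¹ ≤ r ^ x := by
  have hx' := abs_le.1 hx
  have h2 : r ^ n ≤ 5 ^ n := pow_le_pow_left₀ (by linarith) h5 n
  constructor
  · calc r ^ x ≤ r ^ (n : ℤ) := zpow_le_zpow_right₀ h1 hx'.2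
      _ = r ^ n := zpow_natCast r n
      _ ≤ 5 ^ n := h2
  · calc ((5 : ℝ) ^ n)⁻¹ ≤ (r ^ n)⁻¹ := inv_anti₀ (by positivity) h2
      _ = r ^ (-(n : ℤ)) := by rw [zpow_neg, zpow_natCast]
      _ ≤ r ^ x := zpow_le_zpow_right₀ h1 hx'.1

/-- the main estimate: a single record step dominates -/
lemma pos_of_record (r : ℝˣ) (h1 : (1 : ℝ) ≤ r) (h5 : (r : ℝ) ≤ 5)
    (hr : ∀ k, |hs^[k] ((r : ℝ) - 3)| ≤ 2) (ξ : ℕ → ℕ × Bool) (k j i : ℕ) (hi : 1 ≤ i)
    (hj : j < k) (hji : (ξ j).1 = i + 1)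
    (hs1 : 1 ≤ sg (ξ j).2 * hs^[i + 1] ((r : ℝ) - 3))
    (hother : ∀ l < k, l ≠ j → (ξ l).1 ≤ i) (hk : k ≤ L (i + 1)) :
    0 < ev r (X (fun l => step (ξ l)) k).f := by
  rw [ev_X, ← Finset.add_sum_erase _ _ (Finset.mem_range.2 hj)]
  set n := L (i + 1) with hn
  have hM : (1 : ℝ) ≤ M i := by exact_mod_cast M_pos i
  have hbd : ∀ l < k, (r : ℝ) ^ (X (fun l => step (ξ l)) l).x ≤ 5 ^ n ∧
      ((5 : ℝ) ^ n)⁻¹ ≤ (r : ℝ) ^ (X (fun l => step (ξ l)) l).x := fun l hl =>
    zpow_bd r h1 h5 _ n ((X_x ξ l).trans (by exact_mod_cast (by omega)))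
  have hmain : ((5 : ℝ) ^ n)⁻¹ * M (i + 1) ≤
      (r : ℝ) ^ (X (fun l => step (ξ l)) j).x * ev r (step (ξ j)).f := by
    have e : ξ j = (i + 1, (ξ j).2) := by rw [← hji]
    have h2 : (M (i + 1) : ℝ) ≤ ev r (step (ξ j)).f := by
      rw [e, ev_step_big r (i + 1) (by omega)]
      exact le_mul_of_one_le_right (by positivity) hs1
    exact mul_le_mul (hbd j hj).2 h2 (by positivity) (by positivity)
  have hrest : ∀ l ∈ (Finset.range k).erase j, -(5 ^ n * (2 * M i)) ≤
      (r : ℝ) ^ (X (fun l => step (ξ l)) l).x * ev r (step (ξ l)).f := by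
    intro l hl
    obtain ⟨hlj, hl⟩ := Finset.mem_erase.1 hl
    have hl := Finset.mem_range.1 hl
    have h2 := ev_step_abs r hr (ξ l)
    have h3 : (M (ξ l).1 : ℝ) ≤ M i := by exact_mod_cast M_mono (hother l hl hlj)
    have h4 : |(r : ℝ) ^ (X (fun l => step (ξ l)) l).x * ev r (step (ξ l)).f|
        ≤ 5 ^ n * (2 * M i) := by
      rw [abs_mul, abs_of_nonneg (by positivity)]
      exact mul_le_mul (hbd l hl).1 (by linarith) (abs_nonneg _) (by positivity)
    exact (abs_le.1 h4).1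
  have hsum := Finset.card_nsmul_le_sum _ _ _ hrest
  have hcard : (((Finset.range k).erase j).card : ℝ) ≤ n := by
    have : ((Finset.range k).erase j).card ≤ n := by
      have := Finset.card_erase_le (s := Finset.range k) (a := j)
      rw [Finset.card_range] at this
      omega
    exact_mod_cast this
  rw [nsmul_eq_mul] at hsum
  have hMs : (M (i + 1) : ℝ) = M i * (2 * n * 25 ^ n + 1) := by
    rw [M]; push_cast; rfl
  have h25 : (25 : ℝ) ^ n = 5 ^ n * 5 ^ n := by rw [← mul_pow]; norm_num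
  have h5pos : (0 : ℝ) < 5 ^ n := by positivity
  have hkey : ((5 : ℝ) ^ n)⁻¹ * M (i + 1) = n * (5 ^ n * (2 * M i)) + (5 ^ n)⁻¹ * M i := by
    rw [hMs, h25]; field_simp
  have hp : 0 < ((5 : ℝ) ^ n)⁻¹ * M i := by positivity
  have hq : (((Finset.range k).erase j).card : ℝ) * (5 ^ n * (2 * M i))
      ≤ n * (5 ^ n * (2 * M i)) := by gcongr
  linarith

/-- labels of index below `i` -/
def H (i : ℕ) : Set (ℕ × Bool) := {p | p.1 < i}

/-- labels of index `i` -/
def Lv (i : ℕ) : Set (ℕ × Bool) := {p | p.1 = i}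

/-- index `i` is used at least twice before any higher index is used -/
def Bad (i : ℕ) : Set (ℕ → ℕ × Bool) := {ω | ∃ j m, (∀ l < j, ω l ∈ H i) ∧ ω j ∈ Lv i ∧
        (∀ l < m, ω (j + 1 + l) ∈ H i) ∧ ω (j + 1 + m) ∈ Lv i}

/-- no index above `i` is used for a long time -/
def Slow (i : ℕ) : Set (ℕ → ℕ × Bool) := {ω | ∀ l < L i, ω l ∈ H (i + 1)}

/-- the subsemigroup of elements with positive translation part -/
def Kpos (r : ℝˣ) (hr : (0 : ℝ) < r) : Subsemigroup ZZ where
  carrier := {g | 0 < ev r g.f}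
  mul_mem' := by
    intro g h hg hh
    have hg : 0 < ev r g.f := hg
    have hh : 0 < ev r h.f := hh
    show 0 < ev r (g * h).f
    rw [ev_mul]
    positivity

lemma nar_det (ξ : ℕ → ℕ × Bool) (i0 n : ℕ) (hi0 : 2 ≤ i0)
    (hbad : ∀ i, i0 ≤ i → ξ ∉ Bad i) (hslow : ∀ i, i0 ≤ i → ξ ∉ Slow i)
    (hn : ∃ j < n, ξ j ∉ H i0) :
    Subsemigroup.closure {g | ∃ k, n ≤ k ∧ X (fun l => step (ξ l)) k = g} ≠ ⊤ := by
  classical
  let ε : ℕ → Bool := fun i => if h : ∃ j, ξ j ∉ H i then (ξ (Nat.find h)).2 else true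
  obtain ⟨u, hu⟩ := itin ε
  have hu0 : |u| ≤ 2 := by simpa using (hu 0).2
  have hu1 := abs_le.1 hu0
  let r : ℝˣ := Units.mk0 (u + 3) (by linarith)
  have hru : (r : ℝ) - 3 = u := by simp [r]
  have hr1 : (1 : ℝ) ≤ r := by simp only [r, Units.val_mk0]; linarith
  have hr5 : (r : ℝ) ≤ 5 := by simp only [r, Units.val_mk0]; linarith
  have hX : ∀ k, n ≤ k → X (fun l => step (ξ l)) k ∈ Kpos r (by linarith) := by
    intro k hk
    obtain ⟨j0, hj0, hj0H⟩ := hn
    have hex : ∃ d, ∀ j < k, ξ j ∈ H (d + 1) :=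
      ⟨(Finset.range k).sup fun j => (ξ j).1, fun j hj =>
        Nat.lt_succ_of_le (Finset.le_sup (f := fun j => (ξ j).1) (Finset.mem_range.2 hj))⟩
    set i := Nat.find hex with hi
    have hi1 : ∀ j < k, ξ j ∈ H (i + 1) := Nat.find_spec hex
    have hii0 : i0 ≤ i := by
      have h1 : (ξ j0).1 < i + 1 := hi1 j0 (by omega)
      have h2 : ¬ (ξ j0).1 < i0 := hj0H
      omega
    have hex3 : ∃ j < k, ξ j ∉ H i := by
      have := Nat.find_min hex (m := i - 1) (by omega)
      push Not at this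
      obtain ⟨j, hj, hjH⟩ := this
      rw [show i - 1 + 1 = i by omega] at hjH
      exact ⟨j, hj, hjH⟩
    have hex2 : ∃ j, ξ j ∉ H i := by
      obtain ⟨j, _, hj⟩ := hex3
      exact ⟨j, hj⟩
    have hσ : ε i = (ξ (Nat.find hex2)).2 := dif_pos hex2
    set j := Nat.find hex2 with hj
    have hjH : ξ j ∉ H i := Nat.find_spec hex2
    have hjk : j < k := by
      obtain ⟨j', hj', hj'H⟩ := hex3
      exact lt_of_le_of_lt (Nat.find_min' hex2 hj'H) hj'
    have hjl : ∀ l < j, ξ l ∈ H i := fun l hl => by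
      by_contra h
      exact Nat.find_min hex2 hl h
    have hlev : ∀ l < k, ξ l ∉ H i → ξ l ∈ Lv i := fun l hl h => by
      have h1 : (ξ l).1 < i + 1 := hi1 l hl
      have h2 : ¬ (ξ l).1 < i := h
      show (ξ l).1 = i
      omega
    have hjL : ξ j ∈ Lv i := hlev j hjk hjH
    have hafter : ∀ m, j + 1 + m < k → ξ (j + 1 + m) ∈ H i := by
      by_contra hcon
      push Not at hcon
      let m := Nat.find hcon
      have hm : j + 1 + m < k ∧ ξ (j + 1 + m) ∉ H i := Nat.find_spec hcon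
      have hml : ∀ l < m, ξ (j + 1 + l) ∈ H i := fun l hl => by
        have := Nat.find_min hcon hl
        push Not at this
        exact this (by omega)
      exact hbad i hii0 ⟨j, m, hjl, hjL, hml, hlev _ hm.1 hm.2⟩
    have hkL : k ≤ L i := by
      by_contra hlt
      exact hslow i hii0 fun l hl => hi1 l (by omega)
    obtain ⟨i', hi'⟩ : ∃ i', i = i' + 1 := ⟨i - 1, by omega⟩
    refine pos_of_record r hr1 hr5 (fun k => by rw [hru]; exact (hu k).2) ξ k j i' (by omega) hjk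
      (hi' ▸ hjL) ?_ ?_ (hi' ▸ hkL)
    · rw [hru, ← hσ, ← hi']; exact (hu i).1
    · intro l hl hlj
      have : (ξ l).1 < i := by
        rcases lt_or_gt_of_ne hlj with h | h
        · exact hjl l h
        · have := hafter (l - (j + 1)) (by omega)
          rwa [show j + 1 + (l - (j + 1)) = l by omega] at this
      omega
  intro htop
  have h1 : (1 : ZZ) ∈ Subsemigroup.closure {g | ∃ k, n ≤ k ∧ X (fun l => step (ξ l)) k = g} := by
    rw [htop]; exact Subsemigroup.mem_top _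
  have hle : Subsemigroup.closure {g | ∃ k, n ≤ k ∧ X (fun l => step (ξ l)) k = g}
      ≤ Kpos r (by linarith) := by
    rw [Subsemigroup.closure_le]
    rintro _ ⟨k, hk, rfl⟩
    exact hX k hk
  have h2 : 0 < ev r (1 : ZZ).f := hle h1
  simp at h2

/-- the law of the index -/
noncomputable def tl : PMF ℕ := tailPMF W2 W2_zero W2_anti W2_lim

/-- the law of the labels -/
noncomputable def lam : PMF (ℕ × Bool) :=
  tl.bind fun k => (PMF.uniformOfFintype Bool).map fun s => (k, s)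

/-- the step law -/
noncomputable def mu : PMF ZZ := lam.map step

lemma mu_eq : mu = tl.bind fun k => (PMF.uniformOfFintype Bool).map fun s => step (k, s) := by
  unfold mu lam
  rw [PMF.map_bind]
  congr 1
  funext k
  rw [PMF.map_comp]
  rfl

lemma mu_symm (g : ZZ) : mu g⁻¹ = mu g := by
  classical
  rw [mu_eq, PMF.bind_apply, PMF.bind_apply]
  apply tsum_congr
  intro k
  congr 1
  rw [PMF.map_apply, PMF.map_apply, tsum_bool, tsum_bool]
  simp only [step, PMF.uniformOfFintype_apply, if_true, Bool.false_eq_true, if_false, inv_inj]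
  rw [add_comm]
  congr 1
  simp only [inv_eq_iff_eq_inv]

lemma tl_pos (k : ℕ) : k ∈ tl.support := by
  rw [PMF.mem_support_iff, tl, tailPMF_apply]
  exact (ENNReal.ofReal_pos.2 (sub_pos.2 (W2_strict k))).ne'

lemma gen_mem (k : ℕ) : gen k ∈ mu.support := by
  rw [mu_eq, PMF.mem_support_bind_iff]
  refine ⟨k, tl_pos k, ?_⟩
  rw [PMF.mem_support_map_iff]
  exact ⟨true, PMF.mem_support_uniformOfFintype _, by simp [step]⟩

lemma mu_closure : Subgroup.closure mu.support = ⊤ :=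
  eq_top_of_mem _ (Subgroup.subset_closure (by simpa [gen] using gen_mem 0))
    (Subgroup.subset_closure (by simpa [gen] using gen_mem 1))

lemma lam_fst : lam.map Prod.fst = tl := by
  unfold lam
  rw [PMF.map_bind]
  conv_rhs => rw [← PMF.bind_pure tl]
  congr 1
  funext k
  rw [PMF.map_comp]
  exact PMF.map_const _ _

lemma lam_set (A : Set ℕ) : lam.toMeasure (Prod.fst ⁻¹' A) = tl.toMeasure A := by
  rw [← lam_fst, PMF.toMeasure_map_apply _ _ _ measurable_fst MeasurableSet.of_discrete]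

lemma lam_H (d : ℕ) : lam.toMeasure (H d) = ENNReal.ofReal (1 - W2 d) := by
  rw [← tailPMF_lt W2 W2_zero W2_anti W2_lim d]
  exact lam_set {k | k < d}

lemma lam_Lv (d : ℕ) : lam.toMeasure (Lv d) = ENNReal.ofReal (W2 d - W2 (d + 1)) := by
  rw [← tailPMF_apply W2 W2_zero W2_anti W2_lim d,
    ← PMF.toMeasure_apply_singleton _ d MeasurableSet.of_discrete]
  exact lam_set {d}

lemma prob_Bad (i : ℕ) : Measure.infinitePi (fun _ : ℕ => lam.toMeasure) (Bad i)
    ≤ ENNReal.ofReal ((1 / ((i : ℝ) + 2)) ^ 2) := by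
  have hW := W2_pos i
  have hW1 : W2 i ≤ 1 := W2_zero ▸ W2_anti (Nat.zero_le _)
  have hcompl : 1 - lam.toMeasure (H i) = ENNReal.ofReal (W2 i) := by
    rw [lam_H, ← ENNReal.ofReal_one, ← ENNReal.ofReal_sub _ (by linarith)]
    congr 1; ring
  refine (two_hits _ _ _).trans ?_
  rw [hcompl, lam_Lv, ENNReal.ofReal_pow (by positivity), ← W2_ratio,
    ENNReal.ofReal_div_of_pos hW, ENNReal.div_eq_inv_mul, mul_comm]

lemma prob_Slow (i : ℕ) : Measure.infinitePi (fun _ : ℕ => lam.toMeasure) (Slow i)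
    ≤ ENNReal.ofReal ((1 / 2 : ℝ) ^ i) := by
  have hW1 : W2 (i + 1) ≤ 1 := W2_zero ▸ W2_anti (Nat.zero_le _)
  have := cyl lam.toMeasure (L i) fun _ => H (i + 1)
  unfold Slow
  rw [this, Finset.prod_const, Finset.card_range, lam_H, ← ENNReal.ofReal_pow (by linarith)]
  exact ENNReal.ofReal_le_ofReal (L_spec i)

theorem lam_ae : ∀ᵐ ξ ∂(Measure.infinitePi (fun _ : ℕ => lam.toMeasure)), ∃ n, 1 ≤ n ∧
    Subsemigroup.closure {g | ∃ k, n ≤ k ∧ X (fun l => step (ξ l)) k = g} ≠ ⊤ := by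
  have h1 : ∀ᵐ ω ∂(Measure.infinitePi (fun _ : ℕ => lam.toMeasure)),
      ∀ᶠ i in atTop, ω ∉ Slow i := by
    apply ae_eventually_notMem
    have hs : Summable fun i : ℕ => (1 / 2 : ℝ) ^ i := summable_geometric_two
    refine ne_top_of_le_ne_top ?_ (ENNReal.tsum_le_tsum prob_Slow)
    rw [← ENNReal.ofReal_tsum_of_nonneg (fun i => by positivity) hs]
    exact ENNReal.ofReal_ne_top
  have h2 : ∀ᵐ ω ∂(Measure.infinitePi (fun _ : ℕ => lam.toMeasure)),
      ∀ᶠ i in atTop, ω ∉ Bad i := by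
    apply ae_eventually_notMem
    have hs : Summable fun i : ℕ => (1 / ((i : ℝ) + 2)) ^ 2 := by
      have h3 : Summable fun i : ℕ => (1 : ℝ) / ((i : ℝ)) ^ 2 :=
        Real.summable_one_div_nat_pow.2 one_lt_two
      have h4 := (summable_nat_add_iff 2).2 h3
      refine h4.congr fun i => ?_
      push_cast
      rw [div_pow, one_pow]
    refine ne_top_of_le_ne_top ?_ (ENNReal.tsum_le_tsum prob_Bad)
    rw [← ENNReal.ofReal_tsum_of_nonneg (fun i => by positivity) hs]
    exact ENNReal.ofReal_ne_top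
  have h3 : ∀ᵐ ω ∂(Measure.infinitePi (fun _ : ℕ => lam.toMeasure)), ∀ i0, ∃ j, ω j ∉ H i0 := by
    rw [ae_all_iff]
    intro i0
    rw [ae_iff]
    have hlt : lam.toMeasure (H i0) < 1 := by
      rw [lam_H, ENNReal.ofReal_lt_one]
      linarith [W2_pos i0]
    have := never lam.toMeasure _ hlt 0
    convert this using 2
    ext ω
    simp
  filter_upwards [h1, h2, h3] with ω hω1 hω2 hω3
  obtain ⟨i1, hi1⟩ := eventually_atTop.1 hω1
  obtain ⟨i2, hi2⟩ := eventually_atTop.1 hω2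
  obtain ⟨j, hj⟩ := hω3 (max 2 (max i1 i2))
  exact ⟨j + 1, by omega, nar_det ω (max 2 (max i1 i2)) (j + 1) (by omega)
    (fun i hi => hi2 i (by omega)) (fun i hi => hi1 i (by omega)) ⟨j, Nat.lt_succ_self j, hj⟩⟩

theorem mu_not_AR [MeasurableSpace ZZ] [DiscreteMeasurableSpace ZZ] :
    ¬ ∀ n : ℕ, 1 ≤ n → ∀ᵐ ω ∂(Measure.infinitePi (fun _ : ℕ => mu.toMeasure)),
      Subsemigroup.closure {g | ∃ k, n ≤ k ∧ X ω k = g} = ⊤ := by
  intro h
  have hm : Measurable step := Measurable.of_discrete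
  have hmap : Measure.infinitePi (fun _ : ℕ => mu.toMeasure)
      = (Measure.infinitePi (fun _ : ℕ => lam.toMeasure)).map (fun ξ l => step (ξ l)) := by
    rw [Measure.infinitePi_map_pi _ (fun _ => hm)]
    congr 1
    funext _
    rw [mu, PMF.toMeasure_map _ _ hm]
  have h0 : ∀ᵐ ω ∂(Measure.infinitePi (fun _ : ℕ => mu.toMeasure)), ∀ n : ℕ, 1 ≤ n →
      Subsemigroup.closure {g | ∃ k, n ≤ k ∧ X ω k = g} = ⊤ := by
    rw [ae_all_iff]
    intro n
    by_cases hn : 1 ≤ n
    · filter_upwards [h n hn] with ω hω _ using hω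
    · exact Eventually.of_forall fun ω hn' => absurd hn' hn
  rw [hmap] at h0
  have h1 := ae_of_ae_map
    (measurable_pi_lambda _ fun l => hm.comp (measurable_pi_apply l)).aemeasurable h0
  have hF : ∀ᵐ ω ∂(Measure.infinitePi (fun _ : ℕ => lam.toMeasure)), False := by
    filter_upwards [h1, lam_ae] with ξ h2 h3
    obtain ⟨n, hn, h4⟩ := h3
    exact h4 (h2 n hn)
  rw [ae_iff] at hF
  simp at hF

lemma measurable_X [MeasurableSpace ZZ] [DiscreteMeasurableSpace ZZ] (k : ℕ) :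
    Measurable fun ω : ℕ → ZZ => X ω k := by
  induction k with
  | zero => exact measurable_const
  | succ k ih =>
    simp only [X_succ]
    exact ih.mul (measurable_pi_apply k)

lemma measurable_event [MeasurableSpace ZZ] [DiscreteMeasurableSpace ZZ] (n : ℕ) :
    MeasurableSet {ω : ℕ → ZZ | Subsemigroup.closure {g | ∃ k, n ≤ k ∧ X ω k = g} ≠ ⊤} := by
  have hl : ∀ l : List ℕ, Measurable fun ω : ℕ → ZZ => (l.map fun k => X ω (n + k)).prod := by
    intro l
    induction l with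
    | nil => exact measurable_const
    | cons k l ih =>
      simp only [List.map_cons, List.prod_cons]
      exact (measurable_X (n + k)).mul ih
  have key : ∀ (ω : ℕ → ZZ) (g : ZZ), g ∈ Subsemigroup.closure {g | ∃ k, n ≤ k ∧ X ω k = g} ↔
      ∃ l : List ℕ, l ≠ [] ∧ (l.map fun k => X ω (n + k)).prod = g := by
    intro ω g
    constructor
    · intro hg
      induction hg using Subsemigroup.closure_induction with
      | mem x hx =>
        obtain ⟨k, hk, rfl⟩ := hx
        exact ⟨[k - n], by simp, by simp [Nat.add_sub_cancel' hk]⟩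
      | mul x y _ _ hx hy =>
        obtain ⟨l1, h1, rfl⟩ := hx
        obtain ⟨l2, _, rfl⟩ := hy
        exact ⟨l1 ++ l2, by simp [h1], by simp⟩
    · rintro ⟨l, hl, rfl⟩
      induction l with
      | nil => exact absurd rfl hl
      | cons k l ih =>
        have h1 : X ω (n + k) ∈ Subsemigroup.closure {g | ∃ k, n ≤ k ∧ X ω k = g} :=
          Subsemigroup.subset_closure ⟨n + k, by omega, rfl⟩
        by_cases h : l = []
        · subst h; simpa using h1
        · simp only [List.map_cons, List.prod_cons]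
          exact Subsemigroup.mul_mem _ h1 (ih h)
  have : {ω : ℕ → ZZ | Subsemigroup.closure {g | ∃ k, n ≤ k ∧ X ω k = g} ≠ ⊤}
      = (⋂ g : ZZ, ⋃ l : List ℕ, ⋃ _ : l ≠ [],
        (fun ω : ℕ → ZZ => (l.map fun k => X ω (n + k)).prod) ⁻¹' {g})ᶜ := by
    ext ω
    simp only [Set.mem_ofPred_eq, Set.mem_compl_iff, Set.mem_iInter, Set.mem_iUnion,
      Set.mem_preimage, Set.mem_singleton_iff, ne_eq, Subsemigroup.eq_top_iff', key, exists_prop]
  rw [this]
  exact (MeasurableSet.iInter fun g => MeasurableSet.iUnion fun l => MeasurableSet.iUnion fun _ =>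
    hl l MeasurableSet.of_discrete).compl

open Classical in
/-- the standard generating set -/
noncomputable def gens : Finset ZZ := {a, a⁻¹, t, t⁻¹}

lemma ne1 : a ≠ a⁻¹ := fun h => by
  have := congrArg (fun g : ZZ => ev 1 g.f) h
  simp at this
  linarith
lemma ne2 : a ≠ t := fun h => by simpa using congrArg ZZ.x h
lemma ne3 : a ≠ t⁻¹ := fun h => by simpa using congrArg ZZ.x h
lemma ne4 : a⁻¹ ≠ t := fun h => by simpa using congrArg ZZ.x h
lemma ne5 : a⁻¹ ≠ t⁻¹ := fun h => by simpa using congrArg ZZ.x h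
lemma ne6 : t ≠ t⁻¹ := fun h => by simpa using congrArg ZZ.x h

lemma mem_gens (g : ZZ) : g ∈ gens ↔ g = a ∨ g = a⁻¹ ∨ g = t ∨ g = t⁻¹ := by
  simp [gens]

lemma sum_gens (F : ZZ → ℝ) : ∑ s ∈ gens, F s = F a + F a⁻¹ + F t + F t⁻¹ := by
  classical
  unfold gens
  rw [Finset.sum_insert (by simp [ne1, ne2, ne3]), Finset.sum_insert (by simp [ne4, ne2]),
    Finset.sum_insert (by simp [ne6]), Finset.sum_singleton]
  ring

lemma card_gens : (gens.card : ℝ) = 4 := by
  have := sum_gens fun _ => 1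
  simp only [Finset.sum_const, nsmul_eq_mul, mul_one] at this
  rw [this]; norm_num

lemma one_notMem_gens : (1 : ZZ) ∉ gens := by
  rw [mem_gens]
  rintro (h | h | h | h)
  · simpa using congrArg ZZ.f h
  · simpa using congrArg ZZ.f h
  · simpa using congrArg ZZ.x h
  · simpa using congrArg ZZ.x h

lemma gens_symm (s : ZZ) (hs : s ∈ gens) : s⁻¹ ∈ gens := by
  rw [mem_gens] at hs ⊢
  rcases hs with h | h | h | h <;> simp [h]

lemma gens_closure : Subgroup.closure (gens : Set ZZ) = ⊤ :=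
  eq_top_of_mem _ (Subgroup.subset_closure (by simp [mem_gens]))
    (Subgroup.subset_closure (by simp [mem_gens]))

lemma gens_liouville (f : ZZ → ℝ) (hb : ∃ B, ∀ g, |f g| ≤ B)
    (hf : ∀ g, f g = (1 / (gens.card : ℝ)) * ∑ s ∈ gens, f (g * s)) (g h : ZZ) : f g = f h := by
  obtain ⟨B, hB⟩ := hb
  have hH : Harm f := fun g => by
    have := hf g
    rw [card_gens, sum_gens fun s => f (g * s)] at this
    linarith
  rw [liouville hH B hB g, liouville hH B hB h]

end Pool.Agent.H290Z.AR
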